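import Mathlib
import Pool.Agent.TH64.PerComb

set_option autoImplicit false
set_option linter.unusedSectionVars false

open scoped BigOperators
open Finset
open Pool.Agent.H4R2 Pool.Agent.TH64.PerNet

namespace Pool.Agent.R947.PT

/-- Tensor product of two scalar networks. -/
theorem scal_mul {K K' : Type*} [Fintype K] [Fintype K'] (W : K → K → K → K → ℂ)
    (W' : K' → K' → K' → K' → ℂ) (L : ℕ) [NeZero L] :
    scal (fun (l r u n : K × K') => W l.1 r.1 u.1 n.1 * W' l.2 r.2 u.2 n.2) L =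
      scal W L * scal W' L := by
  classical
  unfold scal
  have e1 : ∀ G : (Site L → K × K') → ℂ,
      ∑ h : Site L → K × K', G h = ∑ h : Site L → K, ∑ h' : Site L → K', G (fun x => (h x, h' x)) := by
    intro G
    rw [← Fintype.sum_prod_type']
    refine Fintype.sum_equiv (Equiv.arrowProdEquivProdArrow _ _ _) _ _ fun h => ?_
    rfl
  rw [e1]
  simp only [e1]
  rw [Finset.sum_mul_sum]
  refine Finset.sum_congr rfl fun h _ => Finset.sum_congr rfl fun h' _ => ?_
  rw [Finset.sum_mul_sum]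
  refine Finset.sum_congr rfl fun v _ => Finset.sum_congr rfl fun v' _ => ?_
  rw [← Finset.prod_mul_distrib]

/-- Pairs of followed functions are followed. -/
theorem followed_prod {J J' : Type} [Fintype J] [Fintype J'] {σ : ℕ → J} {τ : ℕ → J'} {D E : ℕ}
    (hσ : Followed σ D) (hτ : Followed τ E) : Followed (fun L => (σ L, τ L)) (D * E) := by
  obtain ⟨W, hW⟩ := hσ
  obtain ⟨W', hW'⟩ := hτ
  let e : Fin (D * E) ≃ Fin D × Fin E := finProdFinEquiv.symm
  refine ⟨fun j l r u n => W j.1 (e l).1 (e r).1 (e u).1 (e n).1 *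
    W' j.2 (e l).2 (e r).2 (e u).2 (e n).2, fun κ hκ => ?_⟩
  obtain ⟨L₁, h1⟩ := hW (min κ 1) (lt_min hκ one_pos)
  obtain ⟨L₂, h2⟩ := hW' (min κ 1) (lt_min hκ one_pos)
  refine ⟨max L₁ L₂, fun L _ hL => ?_⟩
  have hs : ∀ j : J × J', scal (fun l r u n => W j.1 (e l).1 (e r).1 (e u).1 (e n).1 *
      W' j.2 (e l).2 (e r).2 (e u).2 (e n).2) L = scal (W j.1) L * scal (W' j.2) L := by
    intro j
    rw [← scal_mul]
    exact scal_equiv e (fun (l r u n : Fin D × Fin E) =>
      W j.1 l.1 r.1 u.1 n.1 * W' j.2 l.2 r.2 u.2 n.2) L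
  obtain ⟨a1, a2⟩ := h1 L ((le_max_left _ _).trans hL)
  obtain ⟨b1, b2⟩ := h2 L ((le_max_right _ _).trans hL)
  have h0 : scal (fun l r u n => W (σ L) (e l).1 (e r).1 (e u).1 (e n).1 *
      W' (τ L) (e l).2 (e r).2 (e u).2 (e n).2) L = scal (W (σ L)) L * scal (W' (τ L)) L :=
    hs (σ L, τ L)
  simp only []
  rw [h0]
  refine ⟨mul_ne_zero a1 b1, fun j hj => ?_⟩
  rw [hs, norm_mul, norm_mul]
  have hA := norm_nonneg (scal (W (σ L)) L)
  have hB := norm_nonneg (scal (W' (τ L)) L)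
  have hA' := norm_nonneg (scal (W j.1) L)
  have hB' := norm_nonneg (scal (W' j.2) L)
  have k1 : min κ 1 ≤ 1 := min_le_right _ _
  have k2 : min κ 1 ≤ κ := min_le_left _ _
  have k0 : 0 < min κ 1 := lt_min hκ one_pos
  have c1 : ‖scal (W j.1) L‖ ≤ ‖scal (W (σ L)) L‖ := by
    by_cases h : j.1 = σ L
    · rw [h]
    · exact (a2 _ h).trans (by nlinarith)
  have c2 : ‖scal (W' j.2) L‖ ≤ ‖scal (W' (τ L)) L‖ := by
    by_cases h : j.2 = τ L
    · rw [h]
    · exact (b2 _ h).trans (by nlinarith)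
  by_cases h : j.1 = σ L
  · have h' : j.2 ≠ τ L := fun h' => hj (Prod.ext h h')
    have := b2 _ h'
    calc ‖scal (W j.1) L‖ * ‖scal (W' j.2) L‖
        ≤ ‖scal (W (σ L)) L‖ * (κ * ‖scal (W' (τ L)) L‖) :=
          mul_le_mul c1 (this.trans (mul_le_mul_of_nonneg_right k2 hB)) hB' hA
      _ = _ := by ring
  · have := a2 _ h
    calc ‖scal (W j.1) L‖ * ‖scal (W' j.2) L‖
        ≤ (κ * ‖scal (W (σ L)) L‖) * ‖scal (W' (τ L)) L‖ :=
          mul_le_mul (this.trans (mul_le_mul_of_nonneg_right k2 hA)) c2 hB' (by positivity)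
      _ = _ := by ring

theorem followed_equiv {J J' : Type} [Fintype J] [Fintype J'] {σ : ℕ → J} {D : ℕ} (e : J ≃ J')
    (hσ : Followed σ D) : Followed (fun L => e (σ L)) D := by
  obtain ⟨W, hW⟩ := hσ
  refine ⟨fun j => W (e.symm j), fun κ hκ => ?_⟩
  obtain ⟨L₁, h1⟩ := hW κ hκ
  refine ⟨L₁, fun L _ hL => ?_⟩
  obtain ⟨a, b⟩ := h1 L hL
  simp only [Equiv.symm_apply_apply]
  exact ⟨a, fun j hj => b _ fun h => hj (by rw [← h, Equiv.apply_symm_apply])⟩

lemma scal_one (L : ℕ) [NeZero L] : scal (fun _ _ _ _ : Fin 1 => (1 : ℂ)) L = 1 := by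
  unfold scal
  simp

/-- Finite families of followed functions are followed. -/
theorem followed_fin {J : Type} [Fintype J] {D : ℕ} (k : ℕ) (σ : Fin k → ℕ → J)
    (hσ : ∀ i, Followed (σ i) D) : Followed (fun L (i : Fin k) => σ i L) (D ^ k) := by
  induction k with
  | zero =>
    rw [pow_zero]
    refine ⟨fun _ _ _ _ _ => 1, fun κ hκ => ⟨0, fun L _ _ => ?_⟩⟩
    refine ⟨by rw [scal_one]; exact one_ne_zero, fun j hj => ?_⟩
    exact absurd (Subsingleton.elim _ _) hj
  | succ k ih =>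
    have h1 := followed_prod (hσ 0) (ih (fun i => σ i.succ) (fun i => hσ i.succ))
    have h2 := followed_equiv (Fin.consEquiv (fun _ : Fin (k + 1) => J)) h1
    rw [pow_succ, mul_comm]
    convert h2 using 1
    funext L i
    refine Fin.cases ?_ (fun i => ?_) i <;> simp [Fin.consEquiv]

/-- The Wang tile set `T` (allowed left, right, upper and lower colours) tiles the `L × L` torus. -/
def Tiles {K : Type} (T : K → K → K → K → Prop) (L : ℕ) : Prop :=
  ∃ h v : ZMod L × ZMod L → K, ∀ x : ZMod L × ZMod L,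
    T (h (x.1 - 1, x.2)) (h x) (v x) (v (x.1, x.2 - 1))

/-- A network with a single nonzero entry `c`. -/
lemma scal_single {m : ℕ} (c : ℂ) (L : ℕ) [NeZero L] :
    scal (fun l r u n : Fin (m + 1) => if l = 0 ∧ r = 0 ∧ u = 0 ∧ n = 0 then c else 0) L =
      c ^ (L ^ 2) := by
  classical
  unfold scal
  rw [Finset.sum_eq_single (fun _ => 0), Finset.sum_eq_single (fun _ => 0)]
  · simp [Fintype.card_prod, ZMod.card, sq]
  · intro v _ hv
    obtain ⟨x, hx⟩ := Function.ne_iff.mp hv
    refine Finset.prod_eq_zero (Finset.mem_univ x) ?_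
    simp only []
    rw [if_neg]
    rintro ⟨-, -, h, -⟩
    exact hx h
  · intro h; exact absurd (Finset.mem_univ _) h
  · intro h _ hh
    obtain ⟨x, hx⟩ := Function.ne_iff.mp hh
    refine Finset.sum_eq_zero fun v _ => ?_
    refine Finset.prod_eq_zero (Finset.mem_univ x) ?_
    simp only []
    rw [if_neg]
    rintro ⟨-, h', -, -⟩
    exact hx h'
  · intro h; exact absurd (Finset.mem_univ _) h

open Classical in
lemma scal_tiles {K : Type} [Fintype K] (T : K → K → K → K → Prop) (L : ℕ) [NeZero L] :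
    scal (fun l r u n => if T l r u n then (1 : ℂ) else 0) L =
      (((univ : Finset ((Site L → K) × (Site L → K))).filter (fun p => ∀ x : Site L,
        T (p.1 (x.1 - 1, x.2)) (p.1 x) (p.2 x) (p.2 (x.1, x.2 - 1)))).card : ℂ) := by
  unfold scal
  rw [Finset.card_filter]
  push_cast
  rw [Fintype.sum_prod_type]
  refine Finset.sum_congr rfl fun h _ => Finset.sum_congr rfl fun v _ => ?_
  rw [Finset.prod_ite_zero]
  simp

open Classical in
/-- Whether a Wang tile set tiles the torus is followed by scalar networks. -/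
theorem followed_tiles {m : ℕ} (T : Fin (m + 1) → Fin (m + 1) → Fin (m + 1) → Fin (m + 1) → Prop) :
    Followed (fun L => decide (Tiles T L)) (m + 1) := by
  refine ⟨fun j => if j then (fun l r u n => if T l r u n then (1 : ℂ) else 0) else
    (fun l r u n => if l = 0 ∧ r = 0 ∧ u = 0 ∧ n = 0 then 1 / 2 else 0), fun κ hκ => ?_⟩
  obtain ⟨L₁, hL₁⟩ := exists_pow_lt_of_lt_one hκ (by norm_num : (1 / 2 : ℝ) < 1)
  refine ⟨L₁, fun L _ hL => ?_⟩
  have hL0 : 1 ≤ L := Nat.one_le_iff_ne_zero.mpr (NeZero.ne L)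
  have hf := scal_single (m := m) (1 / 2 : ℂ) L
  have ht := scal_tiles T L
  by_cases h : Tiles T L
  · obtain ⟨a, b, hab⟩ := h
    have hd : decide (Tiles T L) = true := decide_eq_true ⟨a, b, hab⟩
    have hc : 1 ≤ ((univ : Finset ((Site L → Fin (m + 1)) × (Site L → Fin (m + 1)))).filter
        (fun p => ∀ x : Site L,
          T (p.1 (x.1 - 1, x.2)) (p.1 x) (p.2 x) (p.2 (x.1, x.2 - 1)))).card := by
      refine Finset.card_pos.mpr ⟨(a, b), ?_⟩
      rw [Finset.mem_filter]
      exact ⟨Finset.mem_univ _, hab⟩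
    simp only [hd, if_true]
    rw [ht]
    refine ⟨by exact_mod_cast (by omega : _ ≠ 0), fun j hj => ?_⟩
    have hj' : j = false := by cases j <;> simp_all
    subst hj'
    simp only [Bool.false_eq_true, if_false]
    rw [hf, norm_pow]
    have e1 : ‖(1 / 2 : ℂ)‖ = 1 / 2 := by norm_num
    rw [e1, Complex.norm_natCast]
    have e2 : (1 / 2 : ℝ) ^ L ^ 2 ≤ (1 / 2) ^ L₁ :=
      pow_le_pow_of_le_one (by norm_num) (by norm_num) (by nlinarith)
    have e3 : (1 : ℝ) ≤ (((univ : Finset ((Site L → Fin (m + 1)) × (Site L → Fin (m + 1)))).filter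
        (fun p => ∀ x : Site L,
          T (p.1 (x.1 - 1, x.2)) (p.1 x) (p.2 x) (p.2 (x.1, x.2 - 1)))).card : ℝ) := by
      exact_mod_cast hc
    nlinarith
  · have hd : decide (Tiles T L) = false := decide_eq_false h
    have hc : ((univ : Finset ((Site L → Fin (m + 1)) × (Site L → Fin (m + 1)))).filter
        (fun p => ∀ x : Site L,
          T (p.1 (x.1 - 1, x.2)) (p.1 x) (p.2 x) (p.2 (x.1, x.2 - 1)))) = ∅ := by
      refine Finset.filter_eq_empty_iff.mpr fun p _ hp => h ⟨p.1, p.2, hp⟩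
    simp only [hd, Bool.false_eq_true, if_false]
    rw [hf]
    refine ⟨pow_ne_zero _ (by norm_num), fun j hj => ?_⟩
    have hj' : j = true := by cases j <;> simp_all
    subst hj'
    simp only [if_true]
    rw [ht, hc]
    simp only [Finset.card_empty, Nat.cast_zero, norm_zero]
    positivity

end Pool.Agent.R947.PT
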