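import Mathlib
import Pool.Agent.R947.PT.Foll

set_option autoImplicit false
set_option linter.unusedSectionVars false

open scoped BigOperators
open Finset
open Pool.Agent.H4R2 Pool.Agent.TH64.PerNet

namespace Pool.Agent.R947.PT

abbrev KB := Bool × Bool

/-- Consistency of the grid network at a site. -/
def OK (l r u n : KB) : Prop :=
  l.1 = r.1 ∧ u.1 = n.1 ∧ u.2 = l.2 ∧ r.2 = n.2 ∧ ¬ (l.2 = true ∧ n.2 = true) ∧
    (n.1 = true → l.1 = true → n.2 = true) ∧ (n.1 = true → n.2 = true → l.1 = true) ∧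
    (l.1 = true → n.2 = true → n.1 = true)

open Classical in
/-- The weights of the grid network. -/
noncomputable def gw (l r u n : KB) : ℝ :=
  if OK l r u n then (if n.1 = true ∧ l.1 = true ∧ n.2 = true then 16 else 1) else 0

open Classical in
/-- The comparison network: one of four labels on each row. -/
noncomputable def rw4 (l r u n : KB) : ℝ :=
  if l = r ∧ u = (false, false) ∧ n = (false, false) then 1 else 0

lemma gw_nonneg (l r u n : KB) : 0 ≤ gw l r u n := by
  unfold gw; split_ifs <;> norm_num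

noncomputable def sreal (w : KB → KB → KB → KB → ℝ) (L : ℕ) [NeZero L] : ℝ :=
  ∑ h : Site L → KB, ∑ v : Site L → KB,
    ∏ x : Site L, w (h (x.1 - 1, x.2)) (h x) (v x) (v (x.1, x.2 - 1))

lemma scal_real (w : KB → KB → KB → KB → ℝ) (L : ℕ) [NeZero L] :
    scal (fun l r u n => ((w l r u n : ℝ) : ℂ)) L = ((sreal w L : ℝ) : ℂ) := by
  unfold scal sreal
  push_cast
  rfl

lemma zconst {α : Type*} {L : ℕ} [NeZero L] (f : ZMod L → α) (hf : ∀ i, f (i - 1) = f i)
    (i : ZMod L) : f i = f 0 := by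
  have h : ∀ n : ℕ, f (n : ZMod L) = f 0 := by
    intro n
    induction n with
    | zero => simp
    | succ n ih =>
      rw [← ih, ← hf]
      congr 1
      push_cast
      ring
  have := h i.val
  rwa [ZMod.natCast_zmod_val] at this

/-! ### the comparison network -/

lemma sreal_row (L : ℕ) [NeZero L] : sreal rw4 L = 4 ^ L := by
  classical
  unfold sreal
  have e1 : ∀ h : Site L → KB, ∑ v : Site L → KB,
      ∏ x : Site L, rw4 (h (x.1 - 1, x.2)) (h x) (v x) (v (x.1, x.2 - 1)) =
        if ∀ x : Site L, h (x.1 - 1, x.2) = h x then 1 else 0 := by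
    intro h
    rw [Finset.sum_eq_single (fun _ => (false, false))]
    · unfold rw4
      simp only [and_true]
      rw [Finset.prod_ite_zero]
      simp
    · intro v _ hv
      obtain ⟨x, hx⟩ := Function.ne_iff.mp hv
      refine Finset.prod_eq_zero (Finset.mem_univ x) ?_
      unfold rw4
      rw [if_neg]
      rintro ⟨-, h', -⟩
      exact hx h'
    · intro h; exact absurd (Finset.mem_univ _) h
  simp only [e1]
  rw [← Finset.sum_filter, Finset.sum_const, nsmul_eq_mul, mul_one]
  have e2 : ((univ : Finset (Site L → KB)).filter (fun h => ∀ x : Site L, h (x.1 - 1, x.2) = h x)).card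
      = (univ : Finset (ZMod L → KB)).card := by
    symm
    refine Finset.card_bij (fun g _ => fun x : Site L => g x.2) ?_ ?_ ?_
    · intro g _
      rw [Finset.mem_filter]
      exact ⟨Finset.mem_univ _, fun x => rfl⟩
    · intro g _ g' _ h
      funext j
      exact congrFun h (0, j)
    · intro h hh
      rw [Finset.mem_filter] at hh
      refine ⟨fun j => h (0, j), Finset.mem_univ _, ?_⟩
      funext x
      obtain ⟨i, j⟩ := x
      exact (zconst (fun i => h (i, j)) (fun i => hh.2 (i, j)) i).symm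
  rw [e2, Finset.card_univ, Fintype.card_fun]
  simp [ZMod.card]

/-! ### structure of the configurations of the grid network -/

/-- Vertical lines `V`, horizontal lines `H` and diagonals `D`. -/
structure Triple (L : ℕ) where
  V : ZMod L → Bool
  H : ZMod L → Bool
  D : ZMod L → Bool

def Valid {L : ℕ} (V H D : ZMod L → Bool) : Prop :=
  (∀ z, ¬ (D (z - 1) = true ∧ D z = true)) ∧
  (∀ i j, V i = true → H j = true → D (i - j) = true) ∧
  (∀ i j, V i = true → D (i - j) = true → H j = true) ∧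
  (∀ i j, H j = true → D (i - j) = true → V i = true)

def Conf {L : ℕ} (h v : Site L → KB) : Prop :=
  ∀ x : Site L, OK (h (x.1 - 1, x.2)) (h x) (v x) (v (x.1, x.2 - 1))

lemma conf_form {L : ℕ} [NeZero L] {h v : Site L → KB} (hc : Conf h v) :
    (∀ i j, h (i, j) = ((h (0, j)).1, (h (i - j, 0)).2)) ∧
    (∀ i j, v (i, j) = ((v (i, 0)).1, (h (i - 1 - j, 0)).2)) := by
  have a1 : ∀ i j, (h (i, j)).1 = (h (0, j)).1 := fun i j =>
    zconst (fun i => (h (i, j)).1) (fun i => (hc (i, j)).1) i
  have a2 : ∀ i j, (v (i, j)).1 = (v (i, 0)).1 := fun i j =>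
    zconst (fun j => (v (i, j)).1) (fun j => (hc (i, j)).2.1.symm) j
  have a3 : ∀ i j, (v (i, j)).2 = (h (i - 1, j)).2 := fun i j => (hc (i, j)).2.2.1
  have a4 : ∀ i j, (h (i, j)).2 = (v (i, j - 1)).2 := fun i j => (hc (i, j)).2.2.2.1
  have a5 : ∀ i j, (h (i, j)).2 = (h (i - j, 0)).2 := by
    intro i j
    have : (h (i - j + j, j)).2 = (h (i - j + 0, 0)).2 :=
      zconst (fun t => (h (i - j + t, t)).2) (fun t => by
        show (h (i - j + (t - 1), t - 1)).2 = (h (i - j + t, t)).2
        rw [a4 (i - j + t) t, a3, show i - j + (t - 1) = i - j + t - 1 by ring]) j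
    rw [show i - j + j = i by ring, show i - j + 0 = i - j by ring] at this
    exact this
  refine ⟨fun i j => Prod.ext (a1 i j) (a5 i j), fun i j => Prod.ext (a2 i j) ?_⟩
  rw [a3, a5]

lemma conf_valid {L : ℕ} [NeZero L] {h v : Site L → KB} (hc : Conf h v) :
    Valid (fun i => (v (i, 0)).1) (fun j => (h (0, j)).1) (fun z => (h (z, 0)).2) := by
  obtain ⟨b1, b2⟩ := conf_form hc
  have key : ∀ i j, ¬ ((h (i - 1 - j, 0)).2 = true ∧ (h (i - j, 0)).2 = true) ∧
      ((v (i, 0)).1 = true → (h (0, j)).1 = true → (h (i - j, 0)).2 = true) ∧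
      ((v (i, 0)).1 = true → (h (i - j, 0)).2 = true → (h (0, j)).1 = true) ∧
      ((h (0, j)).1 = true → (h (i - j, 0)).2 = true → (v (i, 0)).1 = true) := by
    intro i j
    have h1 : ¬ ((h (i - 1, j)).2 = true ∧ (v (i, j - 1)).2 = true) ∧
      ((v (i, j - 1)).1 = true → (h (i - 1, j)).1 = true → (v (i, j - 1)).2 = true) ∧
      ((v (i, j - 1)).1 = true → (v (i, j - 1)).2 = true → (h (i - 1, j)).1 = true) ∧
      ((h (i - 1, j)).1 = true → (v (i, j - 1)).2 = true → (v (i, j - 1)).1 = true) :=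
      (hc (i, j)).2.2.2.2
    rw [b1 (i - 1) j, b2 i (j - 1), show i - 1 - (j - 1) = i - j by ring] at h1
    exact h1
  refine ⟨fun z => ?_, fun i j => (key i j).2.1, fun i j => (key i j).2.2.1,
    fun i j => (key i j).2.2.2⟩
  have := (key z 0).1
  simpa using this

lemma valid_nontriv {L : ℕ} {V H D : ZMod L → Bool} (hv : Valid V H D) :
    (∀ i, V i = false) ∧ (∀ i, H i = false) ∨ (∀ i, V i = false) ∧ (∀ i, D i = false) ∨
    (∀ i, H i = false) ∧ (∀ i, D i = false) ∨ ∃ i j, V i = true ∧ H j = true := by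
  obtain ⟨-, h1, h2, h3⟩ := hv
  by_cases hV : ∃ i, V i = true
  · obtain ⟨i, hi⟩ := hV
    by_cases hH : ∃ j, H j = true
    · obtain ⟨j, hj⟩ := hH
      exact Or.inr (Or.inr (Or.inr ⟨i, j, hi, hj⟩))
    · by_cases hD : ∃ z, D z = true
      · obtain ⟨z, hz⟩ := hD
        exact absurd ⟨i - z, h2 i (i - z) hi (by rw [show i - (i - z) = z by ring]; exact hz)⟩ hH
      · push Not at hH hD
        exact Or.inr (Or.inr (Or.inl ⟨fun j => Bool.eq_false_iff.mpr (hH j),
          fun j => Bool.eq_false_iff.mpr (hD j)⟩))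
  · by_cases hH : ∃ j, H j = true
    · obtain ⟨j, hj⟩ := hH
      by_cases hD : ∃ z, D z = true
      · obtain ⟨z, hz⟩ := hD
        exact absurd ⟨z + j, h3 (z + j) j hj (by rw [show z + j - j = z by ring]; exact hz)⟩ hV
      · push Not at hV hD
        exact Or.inr (Or.inl ⟨fun j => Bool.eq_false_iff.mpr (hV j),
          fun j => Bool.eq_false_iff.mpr (hD j)⟩)
    · push Not at hV hH
      exact Or.inl ⟨fun j => Bool.eq_false_iff.mpr (hV j), fun j => Bool.eq_false_iff.mpr (hH j)⟩

/-- On a torus of prime side a grid has only one line of each type. -/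
lemma valid_prime {L : ℕ} (hp : L.Prime) {V H D : ZMod L → Bool} (hv : Valid V H D)
    {i₀ j₀ : ZMod L} (hi : V i₀ = true) (hj : H j₀ = true) :
    (∀ i, V i = true ↔ i = i₀) ∧ (∀ j, H j = true ↔ j = j₀) ∧ (∀ z, D z = true ↔ z = i₀ - j₀) := by
  have : Fact L.Prime := ⟨hp⟩
  obtain ⟨h0, h1, h2, h3⟩ := hv
  have hD0 : D (i₀ - j₀) = true := h1 _ _ hi hj
  have hH : ∀ j, H j = true → j = j₀ := by
    intro j hj'
    by_contra hne
    have hδ : j₀ - j ≠ 0 := sub_ne_zero.mpr (Ne.symm hne)
    have hstep : ∀ z, D z = true → D (z + (j₀ - j)) = true := by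
      intro z hz
      have := h3 (z + j₀) j₀ hj (by rw [show z + j₀ - j₀ = z by ring]; exact hz)
      have := h1 (z + j₀) j this hj'
      rwa [show z + j₀ - j = z + (j₀ - j) by ring] at this
    have hall : ∀ n : ℕ, D (i₀ - j₀ + n * (j₀ - j)) = true := by
      intro n
      induction n with
      | zero => simpa using hD0
      | succ n ih =>
        have := hstep _ ih
        rw [show i₀ - j₀ + (n : ZMod L) * (j₀ - j) + (j₀ - j) =
          i₀ - j₀ + ((n + 1 : ℕ) : ZMod L) * (j₀ - j) by push_cast; ring] at this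
        exact this
    have hall' : ∀ z, D z = true := by
      intro z
      have := hall ((z - (i₀ - j₀)) * (j₀ - j)⁻¹).val
      rw [ZMod.natCast_zmod_val, mul_assoc, inv_mul_cancel₀ hδ] at this
      rwa [show i₀ - j₀ + (z - (i₀ - j₀)) * 1 = z by ring] at this
    exact h0 0 ⟨hall' _, hall' _⟩
  have hD : ∀ z, D z = true → z = i₀ - j₀ := by
    intro z hz
    have := hH _ (h2 i₀ (i₀ - z) hi (by rw [show i₀ - (i₀ - z) = z by ring]; exact hz))
    rw [← this]; ring
  have hV : ∀ i, V i = true → i = i₀ := by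
    intro i hi'
    have := hD _ (h1 i j₀ hi' hj)
    exact sub_left_injective this
  exact ⟨fun i => ⟨hV i, fun h => h ▸ hi⟩, fun j => ⟨hH j, fun h => h ▸ hj⟩,
    fun z => ⟨hD z, fun h => h ▸ hD0⟩⟩

end Pool.Agent.R947.PT
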