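import Mathlib
import Pool.Agent.R947.PT.Prime

set_option autoImplicit false
set_option linter.unusedSectionVars false

open scoped BigOperators
open Finset
open Pool.Agent.H4R2 Pool.Agent.TH64.PerNet

namespace Pool.Agent.R947.PT

lemma gw_of_ok {l r u n : KB} (h : OK l r u n) :
    gw l r u n = if n.1 = true ∧ l.1 = true ∧ n.2 = true then 16 else 1 := by
  unfold gw
  rw [if_pos h]

lemma gw_le (l r u n : KB) : gw l r u n ≤ 16 := by
  unfold gw; split_ifs <;> norm_num

lemma prod_zero_of_not_conf {L : ℕ} [NeZero L] {h v : Site L → KB} (hc : ¬ Conf h v) :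
    ∏ x : Site L, gw (h (x.1 - 1, x.2)) (h x) (v x) (v (x.1, x.2 - 1)) = 0 := by
  unfold Conf at hc
  push Not at hc
  obtain ⟨x, hx⟩ := hc
  refine Finset.prod_eq_zero (Finset.mem_univ x) ?_
  unfold gw
  rw [if_neg hx]

lemma prod_le_of_prime {L : ℕ} [NeZero L] (hp : L.Prime) {h v : Site L → KB} (hc : Conf h v) :
    ∏ x : Site L, gw (h (x.1 - 1, x.2)) (h x) (v x) (v (x.1, x.2 - 1)) ≤ 16 := by
  obtain ⟨b1, b2⟩ := conf_form hc
  have hval := conf_valid hc
  have hx0 : ∃ x₀ : Site L, ∀ x : Site L, x ≠ x₀ →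
      ¬ ((v (x.1, x.2 - 1)).1 = true ∧ (h (x.1 - 1, x.2)).1 = true ∧ (v (x.1, x.2 - 1)).2 = true) := by
    rcases valid_nontriv hval with h0 | h0 | h0 | ⟨i₀, j₀, hi, hj⟩
    · refine ⟨0, fun x _ hx => ?_⟩
      have h1 : (v (x.1, x.2 - 1)).1 = (v (x.1, 0)).1 := by rw [b2]
      rw [h1] at hx
      have h2 := h0.1 x.1
      rw [h2] at hx
      exact absurd hx.1 (by simp)
    · refine ⟨0, fun x _ hx => ?_⟩
      have h1 : (v (x.1, x.2 - 1)).1 = (v (x.1, 0)).1 := by rw [b2]
      rw [h1] at hx
      have h2 := h0.1 x.1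
      rw [h2] at hx
      exact absurd hx.1 (by simp)
    · refine ⟨0, fun x _ hx => ?_⟩
      have h1 : (h (x.1 - 1, x.2)).1 = (h (0, x.2)).1 := by rw [b1]
      rw [h1] at hx
      have h2 := h0.1 x.2
      rw [h2] at hx
      exact absurd hx.2.1 (by simp)
    · obtain ⟨c1, c2, -⟩ := valid_prime hp hval hi hj
      refine ⟨(i₀, j₀), fun x hx hx' => hx ?_⟩
      have h1 : (v (x.1, x.2 - 1)).1 = (v (x.1, 0)).1 := by rw [b2]
      have h2 : (h (x.1 - 1, x.2)).1 = (h (0, x.2)).1 := by rw [b1]
      rw [h1, h2] at hx'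
      exact Prod.ext ((c1 _).mp hx'.1) ((c2 _).mp hx'.2.1)
  obtain ⟨x₀, hx₀⟩ := hx0
  rw [Finset.prod_eq_single x₀]
  · exact gw_le _ _ _ _
  · intro x _ hx
    rw [gw_of_ok (hc x), if_neg (hx₀ x hx)]
  · intro h; exact absurd (Finset.mem_univ _) h

def ff {L : ℕ} : ZMod L → Bool := fun _ => false

open Classical in
lemma card_conf_le {L : ℕ} [NeZero L] (hp : L.Prime) :
    ((univ : Finset ((Site L → KB) × (Site L → KB))).filter (fun p => Conf p.1 p.2)).card ≤
      3 * 2 ^ L + L ^ 2 := by
  let U : Finset ((ZMod L → Bool) × (ZMod L → Bool) × (ZMod L → Bool)) :=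
    (univ : Finset (ZMod L → Bool)).image (fun D => (ff, ff, D)) ∪
    (univ : Finset (ZMod L → Bool)).image (fun H => (ff, H, ff)) ∪
    (univ : Finset (ZMod L → Bool)).image (fun V => (V, ff, ff)) ∪
    (univ : Finset (ZMod L × ZMod L)).image
      (fun q => (fun i => decide (i = q.1), fun j => decide (j = q.2),
        fun z => decide (z = q.1 - q.2)))
  have hU : U.card ≤ 3 * 2 ^ L + L ^ 2 := by
    have c1 : (univ : Finset (ZMod L → Bool)).card = 2 ^ L := by
      rw [Finset.card_univ, Fintype.card_fun, ZMod.card, Fintype.card_bool]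
    have c2 : (univ : Finset (ZMod L × ZMod L)).card = L ^ 2 := by
      rw [Finset.card_univ, Fintype.card_prod, ZMod.card, sq]
    have d1 := Finset.card_union_le ((univ : Finset (ZMod L → Bool)).image
      (fun D => ((ff : ZMod L → Bool), (ff : ZMod L → Bool), D)))
      ((univ : Finset (ZMod L → Bool)).image (fun H => ((ff : ZMod L → Bool), H, (ff : ZMod L → Bool))))
    have d2 := Finset.card_union_le ((univ : Finset (ZMod L → Bool)).image
      (fun D => ((ff : ZMod L → Bool), (ff : ZMod L → Bool), D)) ∪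
      (univ : Finset (ZMod L → Bool)).image (fun H => ((ff : ZMod L → Bool), H, (ff : ZMod L → Bool))))
      ((univ : Finset (ZMod L → Bool)).image (fun V => (V, (ff : ZMod L → Bool), (ff : ZMod L → Bool))))
    have d3 := Finset.card_union_le ((univ : Finset (ZMod L → Bool)).image
      (fun D => ((ff : ZMod L → Bool), (ff : ZMod L → Bool), D)) ∪
      (univ : Finset (ZMod L → Bool)).image (fun H => ((ff : ZMod L → Bool), H, (ff : ZMod L → Bool))) ∪
      (univ : Finset (ZMod L → Bool)).image (fun V => (V, (ff : ZMod L → Bool), (ff : ZMod L → Bool))))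
      ((univ : Finset (ZMod L × ZMod L)).image
      (fun q => ((fun i => decide (i = q.1) : ZMod L → Bool), (fun j => decide (j = q.2) : ZMod L → Bool),
        (fun z => decide (z = q.1 - q.2) : ZMod L → Bool))))
    have e1 := Finset.card_image_le (s := (univ : Finset (ZMod L → Bool)))
      (f := fun D => ((ff : ZMod L → Bool), (ff : ZMod L → Bool), D))
    have e2 := Finset.card_image_le (s := (univ : Finset (ZMod L → Bool)))
      (f := fun H => ((ff : ZMod L → Bool), H, (ff : ZMod L → Bool)))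
    have e3 := Finset.card_image_le (s := (univ : Finset (ZMod L → Bool)))
      (f := fun V => (V, (ff : ZMod L → Bool), (ff : ZMod L → Bool)))
    have e4 := Finset.card_image_le (s := (univ : Finset (ZMod L × ZMod L)))
      (f := fun q => ((fun i => decide (i = q.1) : ZMod L → Bool),
        (fun j => decide (j = q.2) : ZMod L → Bool), (fun z => decide (z = q.1 - q.2) : ZMod L → Bool)))
    rw [c1] at e1 e2 e3
    rw [c2] at e4
    refine d3.trans ?_
    omega
  refine le_trans ?_ hU
  refine Finset.card_le_card_of_injOn (fun p : (Site L → KB) × (Site L → KB) =>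
    ((fun i => (p.2 (i, 0)).1), (fun j => (p.1 (0, j)).1), (fun z => (p.1 (z, 0)).2))) ?_ ?_
  · intro p hp'
    have hc : Conf p.1 p.2 := (Finset.mem_filter.mp (Finset.mem_coe.mp hp')).2
    have hval := conf_valid hc
    simp only [U, Finset.coe_union, Set.mem_union, Finset.mem_coe, Finset.mem_image,
      Finset.mem_univ, true_and]
    rcases valid_nontriv hval with h0 | h0 | h0 | ⟨i₀, j₀, hi, hj⟩
    · refine Or.inl (Or.inl (Or.inl ⟨_, Prod.ext (funext fun i => (h0.1 i).symm)
        (Prod.ext (funext fun j => (h0.2 j).symm) rfl)⟩))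
    · refine Or.inl (Or.inl (Or.inr ⟨_, Prod.ext (funext fun i => (h0.1 i).symm)
        (Prod.ext rfl (funext fun j => (h0.2 j).symm))⟩))
    · refine Or.inl (Or.inr ⟨_, Prod.ext rfl
        (Prod.ext (funext fun i => (h0.1 i).symm) (funext fun j => (h0.2 j).symm))⟩)
    · obtain ⟨c1, c2, c3⟩ := valid_prime hp hval hi hj
      refine Or.inr ⟨(i₀, j₀), Prod.ext (funext fun i => ?_) (Prod.ext (funext fun j => ?_)
        (funext fun z => ?_))⟩
      · exact (Bool.eq_iff_iff.mpr (by rw [c1 i]; simp)).symm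
      · exact (Bool.eq_iff_iff.mpr (by rw [c2 j]; simp)).symm
      · exact (Bool.eq_iff_iff.mpr (by rw [c3 z]; simp)).symm
  · intro p hp' q hq' hpq
    have hc : Conf p.1 p.2 := (Finset.mem_filter.mp (Finset.mem_coe.mp hp')).2
    have hd : Conf q.1 q.2 := (Finset.mem_filter.mp (Finset.mem_coe.mp hq')).2
    obtain ⟨b1, b2⟩ := conf_form hc
    obtain ⟨d1, d2⟩ := conf_form hd
    simp only [Prod.mk.injEq] at hpq
    obtain ⟨f1, f2, f3⟩ := hpq
    refine Prod.ext (funext fun x => ?_) (funext fun x => ?_)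
    · obtain ⟨i, j⟩ := x
      rw [b1, d1]
      exact Prod.ext (congrFun f2 j) (congrFun f3 (i - j))
    · obtain ⟨i, j⟩ := x
      rw [b2, d2]
      exact Prod.ext (congrFun f1 i) (congrFun f3 (i - 1 - j))

lemma sq_le_two_pow (L : ℕ) : L ^ 2 ≤ 2 * 2 ^ L := by
  induction L with
  | zero => simp
  | succ n ih =>
    have h : n + 1 ≤ 2 ^ n := Nat.lt_two_pow_self
    rw [pow_succ 2 n]
    nlinarith

lemma sreal_prime_le {L : ℕ} [NeZero L] (hp : L.Prime) : sreal gw L ≤ 80 * 2 ^ L := by
  classical
  have h1 : sreal gw L = ∑ p : (Site L → KB) × (Site L → KB),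
      ∏ x : Site L, gw (p.1 (x.1 - 1, x.2)) (p.1 x) (p.2 x) (p.2 (x.1, x.2 - 1)) := by
    unfold sreal
    rw [Fintype.sum_prod_type]
  rw [h1]
  have h2 : ∀ p : (Site L → KB) × (Site L → KB),
      ∏ x : Site L, gw (p.1 (x.1 - 1, x.2)) (p.1 x) (p.2 x) (p.2 (x.1, x.2 - 1)) ≤
        if Conf p.1 p.2 then 16 else 0 := by
    intro p
    split_ifs with h
    · exact prod_le_of_prime hp h
    · exact (prod_zero_of_not_conf h).le
  refine (Finset.sum_le_sum fun p _ => h2 p).trans ?_
  rw [← Finset.sum_filter, Finset.sum_const, nsmul_eq_mul]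
  have h3 := card_conf_le hp
  have h4 := sq_le_two_pow L
  have h5 : (((univ : Finset ((Site L → KB) × (Site L → KB))).filter
      (fun p => Conf p.1 p.2)).card : ℝ) ≤ 5 * 2 ^ L := by
    have : ((univ : Finset ((Site L → KB) × (Site L → KB))).filter
      (fun p => Conf p.1 p.2)).card ≤ 5 * 2 ^ L := by omega
    exact_mod_cast this
  linarith

lemma sreal_composite {L : ℕ} [NeZero L] (h2 : 2 ≤ L) (hp : ¬ L.Prime) : (16 : ℝ) ^ L ≤ sreal gw L := by
  classical
  set a := L.minFac with ha
  have hadvd : a ∣ L := Nat.minFac_dvd L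
  obtain ⟨b, hb⟩ := hadvd
  have ha2 : 2 ≤ a := (Nat.minFac_prime (by omega)).two_le
  have haa : a ^ 2 ≤ L := Nat.minFac_sq_le_self (by omega) hp
  have hab : a ≤ b := by nlinarith
  have hbL : L ≤ b * b := by nlinarith
  let φ : ZMod L →+* ZMod a := ZMod.castHom (Nat.minFac_dvd L) (ZMod a)
  have hnt : Nontrivial (ZMod a) := ZMod.nontrivial_iff.mpr (by omega)
  let m : ZMod L → Bool := fun z => decide (φ z = 0)
  let h : Site L → KB := fun x => (m x.2, m (x.1 - x.2))
  let v : Site L → KB := fun x => (m x.1, m (x.1 - 1 - x.2))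
  have hconf : Conf h v := by
    rintro ⟨i, j⟩
    have e1 : i - 1 - (j - 1) = i - j := by ring
    refine ⟨rfl, rfl, rfl, ?_, ?_, ?_, ?_, ?_⟩
    · show m (i - j) = m (i - 1 - (j - 1))
      rw [e1]
    · show ¬ (m (i - 1 - j) = true ∧ m (i - 1 - (j - 1)) = true)
      rw [e1]
      simp only [m, decide_eq_true_eq, map_sub, map_one]
      rintro ⟨k1, k2⟩
      have : (1 : ZMod a) = 0 := by
        have := congrArg₂ (fun x y => y - x) k1 k2
        rw [show φ i - φ j - (φ i - 1 - φ j) = 1 by ring] at this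
        simpa using this
      exact one_ne_zero this
    · show m i = true → m j = true → m (i - 1 - (j - 1)) = true
      rw [e1]
      simp only [m, decide_eq_true_eq, map_sub]
      intro k1 k2
      rw [k1, k2, sub_zero]
    · show m i = true → m (i - 1 - (j - 1)) = true → m j = true
      rw [e1]
      simp only [m, decide_eq_true_eq, map_sub]
      intro k1 k2
      rw [k1, zero_sub, neg_eq_zero] at k2
      exact k2
    · show m j = true → m (i - 1 - (j - 1)) = true → m i = true
      rw [e1]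
      simp only [m, decide_eq_true_eq, map_sub]
      intro k1 k2
      rw [k1, sub_zero] at k2
      exact k2
  have hnn : ∀ h v : Site L → KB, 0 ≤ ∏ x : Site L, gw (h (x.1 - 1, x.2)) (h x) (v x) (v (x.1, x.2 - 1)) :=
    fun h v => Finset.prod_nonneg fun x _ => gw_nonneg _ _ _ _
  have hlow : ∏ x : Site L, gw (h (x.1 - 1, x.2)) (h x) (v x) (v (x.1, x.2 - 1)) ≤ sreal gw L := by
    unfold sreal
    refine le_trans ?_ (Finset.single_le_sum
      (f := fun h : Site L → KB => ∑ v : Site L → KB,
        ∏ x : Site L, gw (h (x.1 - 1, x.2)) (h x) (v x) (v (x.1, x.2 - 1)))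
      (fun h _ => Finset.sum_nonneg fun v _ => hnn h v) (Finset.mem_univ h))
    exact Finset.single_le_sum
      (f := fun v : Site L → KB => ∏ x : Site L, gw (h (x.1 - 1, x.2)) (h x) (v x) (v (x.1, x.2 - 1)))
      (fun v _ => hnn h v) (Finset.mem_univ v)
  refine le_trans ?_ hlow
  have hprod : ∏ x : Site L, gw (h (x.1 - 1, x.2)) (h x) (v x) (v (x.1, x.2 - 1)) =
      16 ^ ((univ : Finset (Site L)).filter (fun x => m x.1 = true ∧ m x.2 = true)).card := by
    rw [← Finset.prod_const, Finset.prod_filter]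
    refine Finset.prod_congr rfl fun x _ => ?_
    rw [gw_of_ok (hconf x)]
    obtain ⟨i, j⟩ := x
    have e1 : i - 1 - (j - 1) = i - j := by ring
    show (if m i = true ∧ m j = true ∧ m (i - 1 - (j - 1)) = true then (16 : ℝ) else 1) =
      if m i = true ∧ m j = true then 16 else 1
    rw [e1]
    have hiff : (m i = true ∧ m j = true ∧ m (i - j) = true) ↔ (m i = true ∧ m j = true) := by
      constructor
      · rintro ⟨k1, k2, -⟩; exact ⟨k1, k2⟩
      · rintro ⟨k1, k2⟩
        refine ⟨k1, k2, ?_⟩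
        simp only [m, decide_eq_true_eq, map_sub] at k1 k2 ⊢
        rw [k1, k2, sub_zero]
    rw [if_congr hiff rfl rfl]
  rw [hprod]
  refine pow_le_pow_right₀ (by norm_num) ?_
  have hcard : b * b ≤ ((univ : Finset (Site L)).filter (fun x => m x.1 = true ∧ m x.2 = true)).card := by
    have : (univ : Finset (Fin b × Fin b)).card = b * b := by
      rw [Finset.card_univ, Fintype.card_prod, Fintype.card_fin]
    rw [← this]
    refine Finset.card_le_card_of_injOn
      (fun p : Fin b × Fin b => (((a * p.1 : ℕ) : ZMod L), ((a * p.2 : ℕ) : ZMod L))) ?_ ?_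
    · intro p _
      rw [Finset.mem_coe, Finset.mem_filter]
      refine ⟨Finset.mem_univ _, ?_, ?_⟩
      · simp only [m, decide_eq_true_eq]
        rw [map_natCast]; push_cast; simp
      · simp only [m, decide_eq_true_eq]
        rw [map_natCast]; push_cast; simp
    · have hinj : ∀ s t : Fin b, ((a * s : ℕ) : ZMod L) = ((a * t : ℕ) : ZMod L) → s = t := by
        intro s t hst
        rw [ZMod.natCast_eq_natCast_iff'] at hst
        have l1 : a * (s : ℕ) < L := by rw [hb]; exact Nat.mul_lt_mul_of_pos_left s.2 (by omega)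
        have l2 : a * (t : ℕ) < L := by rw [hb]; exact Nat.mul_lt_mul_of_pos_left t.2 (by omega)
        rw [Nat.mod_eq_of_lt l1, Nat.mod_eq_of_lt l2] at hst
        exact Fin.ext (Nat.eq_of_mul_eq_mul_left (by omega) hst)
      intro p _ q _ hpq
      simp only [Prod.mk.injEq] at hpq
      exact Prod.ext (hinj _ _ hpq.1) (hinj _ _ hpq.2)
  exact hbL.trans hcard

/-- Primality of the side of the torus is followed by scalar networks of bond dimension 4. -/
theorem followed_prime : Followed (fun L => decide L.Prime) 4 := by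
  classical
  obtain ⟨e⟩ : Nonempty (Fin 4 ≃ KB) := ⟨Fintype.equivOfCardEq (by simp)⟩
  let w : Bool → KB → KB → KB → KB → ℝ := fun j => if j then rw4 else gw
  refine ⟨fun j l r u n => ((w j (e l) (e r) (e u) (e n) : ℝ) : ℂ), fun κ hκ => ?_⟩
  obtain ⟨L₁, hL₁⟩ := exists_pow_lt_of_lt_one (show (0 : ℝ) < κ / 80 by positivity)
    (by norm_num : (1 / 2 : ℝ) < 1)
  refine ⟨max L₁ 2, fun L _ hL => ?_⟩
  have hs : ∀ j : Bool, scal (fun l r u n => ((w j (e l) (e r) (e u) (e n) : ℝ) : ℂ)) L =
      ((sreal (w j) L : ℝ) : ℂ) := by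
    intro j
    rw [← scal_real]
    exact scal_equiv e (fun l r u n => ((w j l r u n : ℝ) : ℂ)) L
  have hsm : (1 / 2 : ℝ) ^ L ≤ κ / 80 :=
    (pow_le_pow_of_le_one (by norm_num) (by norm_num) ((le_max_left _ _).trans hL)).trans hL₁.le
  have h4 : (4 : ℝ) ^ L = 2 ^ L * 2 ^ L := by rw [← mul_pow]; norm_num
  have h16 : (16 : ℝ) ^ L = 2 ^ L * 2 ^ L * 4 ^ L := by rw [← mul_pow, ← mul_pow]; norm_num
  have h2p : (0 : ℝ) < 2 ^ L := by positivity
  have hhalf : (1 / 2 : ℝ) ^ L * 2 ^ L = 1 := by rw [← mul_pow]; norm_num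
  have hk : 80 ≤ κ * 2 ^ L := by
    have := mul_le_mul_of_nonneg_right hsm h2p.le
    rw [hhalf] at this
    linarith
  by_cases hp : L.Prime
  · have hd : decide L.Prime = true := decide_eq_true hp
    have ht : sreal (w true) L = 4 ^ L := by
      show sreal rw4 L = _
      exact sreal_row L
    simp only [hd]
    rw [hs true, ht]
    refine ⟨by norm_cast; positivity, fun j hj => ?_⟩
    have hj' : j = false := by cases j <;> simp_all
    subst hj'
    rw [hs false]
    have hg : sreal (w false) L = sreal gw L := rfl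
    have hnn : 0 ≤ sreal gw L := Finset.sum_nonneg fun h _ => Finset.sum_nonneg fun v _ =>
      Finset.prod_nonneg fun x _ => gw_nonneg _ _ _ _
    rw [hg, Complex.norm_real, Complex.norm_real, Real.norm_eq_abs, Real.norm_eq_abs,
      abs_of_nonneg hnn, abs_of_pos (by positivity)]
    have := sreal_prime_le hp
    rw [h4]
    nlinarith
  · have hd : decide L.Prime = false := decide_eq_false hp
    have hc := sreal_composite ((le_max_right _ _).trans hL) hp
    have hpos : 0 < sreal gw L := lt_of_lt_of_le (by positivity) hc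
    have hg : sreal (w false) L = sreal gw L := rfl
    simp only [hd]
    rw [hs false, hg]
    refine ⟨by exact_mod_cast hpos.ne', fun j hj => ?_⟩
    have hj' : j = true := by cases j <;> simp_all
    subst hj'
    rw [hs true]
    have ht : sreal (w true) L = 4 ^ L := by
      show sreal rw4 L = _
      exact sreal_row L
    rw [ht, Complex.norm_real, Complex.norm_real, Real.norm_eq_abs, Real.norm_eq_abs,
      abs_of_pos hpos, abs_of_pos (by positivity)]
    have h4p : (0 : ℝ) < 4 ^ L := by positivity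
    have h1 : 1 ≤ (2 : ℝ) ^ L := one_le_pow₀ (by norm_num)
    calc (4 : ℝ) ^ L ≤ κ * 16 ^ L := by
          rw [h16]
          have : 1 ≤ κ * (2 ^ L * 2 ^ L) := by nlinarith
          nlinarith
      _ ≤ κ * sreal gw L := by nlinarith

end Pool.Agent.R947.PT
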